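import Pool.Agent.Helper1.UQ.St1

/-!
# Project UQ, module RKM: rank under identification of vertices
-/

set_option autoImplicit false

open Finset

namespace Pool.Agent.Helper15.UQ

open Classical Pool.Agent.Helper30.RCU Pool.Agent.Helper1.UQ

universe u

section

variable {V V' ι : Type u} {φ : ι → Sym2 V} {σ : V → V'}

lemma cm_mk {e : ι} {a b : V} (he : φ e = s(a, b)) : cm φ σ e = s(σ a, σ b) := by
  simp [cm, he]

lemma conn_cm (σ : V → V') {ω : Set ι} {a b : V} (h : Conn φ ω a b) :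
    Conn (cm φ σ) ω (σ a) (σ b) := by
  obtain ⟨w⟩ := h
  induction w with
  | nil => exact Conn.refl _ _
  | @cons u w v hadj p ih =>
    rw [gr, SimpleGraph.fromEdgeSet_adj] at hadj
    obtain ⟨⟨e, hmem, he⟩, hne⟩ := hadj
    exact (conn_of_mem (cm_mk he) hmem).trans ih

/-- the increment of the rank of `cm φ σ` is at most that of `φ` -/
lemma rk_inc (σ : V → V') (ω : Finset ι) (e : ι) :
    rk (cm φ σ) (insert e ω) + rk φ ω ≤ rk φ (insert e ω) + rk (cm φ σ) ω := by
  obtain ⟨a, b, he⟩ := exists_mk (φ := φ) e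
  have he' : cm φ σ e = s(σ a, σ b) := cm_mk he
  by_cases h : Conn φ (ω : Set ι) a b
  · rw [rk_insert_of_conn he h, rk_insert_of_conn he' (conn_cm σ h)]
    omega
  · have h1 := rk_insert_of_not_conn he h
    by_cases h' : Conn (cm φ σ) (ω : Set ι) (σ a) (σ b)
    · have h2 := rk_insert_of_conn he' h'
      omega
    · have h2 := rk_insert_of_not_conn he' h'
      omega

lemma rk_cm_union (σ : V → V') (ω C : Finset ι) :
    rk (cm φ σ) (ω ∪ C) + rk φ ω ≤ rk φ (ω ∪ C) + rk (cm φ σ) ω := by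
  induction C using Finset.induction_on with
  | empty => simp; omega
  | insert e C _ ih =>
    have h1 := rk_inc (φ := φ) σ (ω ∪ C) e
    rw [union_insert]
    omega

lemma rk_cm_le (σ : V → V') (ω : Finset ι) : rk (cm φ σ) ω ≤ rk φ ω := by
  have h := rk_cm_union (φ := φ) σ ∅ ω
  rw [empty_union, rk_empty, rk_empty] at h
  omega

end

/-- **RKM**. -/
theorem hRKM : StRKM.{u} := by
  intro V V' ι φ σ
  refine ⟨fun ω => rk_cm_le σ ω, fun ω ω' h => ?_, fun ω a b h => conn_cm σ h⟩
  have h1 := rk_cm_union (φ := φ) σ ω ω'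
  rw [union_eq_right.mpr h] at h1
  have h2 := rk_cm_le (φ := φ) σ ω
  have h3 := rk_cm_le (φ := φ) σ ω'
  omega

end Pool.Agent.Helper15.UQ
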